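import Pool.Agent.W516.MTS.Main

/-!
# The motivic relations are the largest stable system of relations between the real periods

The linear relations with rational coefficients between the motivic periods of a mixed Tate motive
over `ℤ` are the largest graded space of relations which are true for the periods (complex numbers)
and whose space of solutions is stable under the single-valued matrix `p⁻¹ p̄`.
-/

set_option autoImplicit false

namespace Pool.Agent.Results.MP_a57f33_nt.LargestStableSystem

open Matrix Pool.Agent.W516.MTZ Pool.Agent.W516.MTR Pool.Agent.W516.MTS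

theorem result (m X : Type) [Fintype m] [DecidableEq m] [Fintype X] [DecidableEq X]
    (M : Motive m X) (p : (Matrix m m ℂ)ˣ) (hp : p ∈ M.gp)
    (hdeg : ∀ x, Odd (M.deg x) ∧ 3 ≤ M.deg x) (hinj : Function.Injective M.deg)
    (hpi : (p : Matrix m m ℂ) M.t M.t = 2 * Real.pi * Complex.I)
    (hzeta : ∀ x, (p : Matrix m m ℂ) M.o (M.s x) = riemannZeta (M.deg x)) (a : m → ℚ) :
    IsGreatest {V : Submodule ℚ (m → ℚ) | Graded M V ∧ Solves V (per a (p : Matrix m m ℂ)) ∧
      ∀ v : m → ℂ, Solves V v → Solves V (v ᵥ* (((p⁻¹ : (Matrix m m ℂ)ˣ) : Matrix m m ℂ) *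
        (p : Matrix m m ℂ).map (starRingEnd ℂ)))} (motivicRelations M a) :=
  main_s hp hdeg hinj hpi hzeta a

end Pool.Agent.Results.MP_a57f33_nt.LargestStableSystem
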